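import Pool.Agent.J6H84.LM.Stm

/-!
# Module PLANE
-/

set_option autoImplicit false

namespace Pool.Agent.J6H68.LM.Plane

open Finset Pool.Agent.H430R2.PermCubes Pool.Agent.J6H84.LM

theorem ne_zero_or {K : Type} [Field K] {w : K × K} (hw : w ≠ 0) : w.1 ≠ 0 ∨ w.2 ≠ 0 := by
  by_contra h
  push Not at h
  exact hw (Prod.ext h.1 h.2)

theorem line_card {K : Type} [Field K] [Fintype K] [DecidableEq K] {w : K × K} (hw : w ≠ 0)
    (c : K) :
    ((univ : Finset (K × K)).filter (fun z => dot w z = c)).card ≤ Fintype.card K := by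
  rw [← Finset.card_univ (α := K)]
  rcases ne_zero_or hw with h | h
  · refine card_le_card_of_injOn Prod.snd (fun _ _ => mem_univ _) ?_
    intro z hz z' hz' he
    have h1 := (mem_filter.1 (mem_coe.1 hz)).2
    have h2 := (mem_filter.1 (mem_coe.1 hz')).2
    unfold dot at h1 h2
    have he' : z.2 = z'.2 := he
    rw [he'] at h1
    have h3 : w.1 * (z.1 - z'.1) = 0 := by linear_combination h1 - h2
    have h4 := (mul_eq_zero.1 h3).resolve_left h
    exact Prod.ext (sub_eq_zero.1 h4) he'
  · refine card_le_card_of_injOn Prod.fst (fun _ _ => mem_univ _) ?_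
    intro z hz z' hz' he
    have h1 := (mem_filter.1 (mem_coe.1 hz)).2
    have h2 := (mem_filter.1 (mem_coe.1 hz')).2
    unfold dot at h1 h2
    have he' : z.1 = z'.1 := he
    rw [he'] at h1
    have h3 : w.2 * (z.2 - z'.2) = 0 := by linear_combination h1 - h2
    have h4 := (mul_eq_zero.1 h3).resolve_left h
    exact Prod.ext he' (sub_eq_zero.1 h4)

/-- two non-proportional forms take prescribed values -/
theorem solve {K : Type} [Field K] {v w : K × K} (h : v.1 * w.2 ≠ v.2 * w.1) (c d : K) :
    ∃ z : K × K, dot v z = c ∧ dot w z = d := by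
  have h' : v.1 * w.2 - v.2 * w.1 ≠ 0 := sub_ne_zero.2 h
  refine ⟨((c * w.2 - v.2 * d) / (v.1 * w.2 - v.2 * w.1),
    (v.1 * d - w.1 * c) / (v.1 * w.2 - v.2 * w.1)), ?_, ?_⟩
  · unfold dot
    rw [← mul_div_assoc, ← mul_div_assoc, ← add_div, div_eq_iff h']
    ring
  · unfold dot
    rw [← mul_div_assoc, ← mul_div_assoc, ← add_div, div_eq_iff h']
    ring

/-- proportional forms have the same fibres -/
theorem prop_fib {K : Type} [Field K] {v w : K × K} (h : v.1 * w.2 = v.2 * w.1) (hw : w ≠ 0)
    {z z' : K × K} (hz : dot w z = dot w z') : dot v z = dot v z' := by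
  unfold dot at *
  rcases ne_zero_or hw with h1 | h1
  · refine mul_left_cancel₀ h1 ?_
    linear_combination v.1 * hz - (z.2 - z'.2) * h
  · refine mul_left_cancel₀ h1 ?_
    linear_combination v.2 * hz + (z.1 - z'.1) * h

theorem main : S_Plane := by
  classical
  intro K _ _ N hLP X _ hX ι _ f hN h1 hnp F hF
  obtain ⟨i0⟩ : Nonempty ι := Fintype.card_pos_iff.1 h1
  obtain ⟨x0⟩ : Nonempty X := Fintype.card_pos_iff.1 (by rw [hX]; exact Fintype.card_pos)
  have hle : ∀ x : X, ((univ : Finset (K × K)).filter (fun z => F z = x)).card ≤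
      Fintype.card K := by
    intro x
    rw [← Finset.card_univ (α := K)]
    refine card_le_card_of_injOn (dot (f i0)) (fun _ _ => mem_univ _) ?_
    intro z hz z' hz' he
    have h2 := (mem_filter.1 (mem_coe.1 hz)).2
    have h3 := (mem_filter.1 (mem_coe.1 hz')).2
    exact hF i0 z z' he (h2.trans h3.symm)
  have hsum : ∑ x : X, ((univ : Finset (K × K)).filter (fun z => F z = x)).card =
      ∑ _x : X, Fintype.card K := by
    have h2 := Finset.card_eq_sum_card_fiberwise (s := (univ : Finset (K × K)))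
      (t := (univ : Finset X)) (f := F) (fun _ _ => mem_coe.2 (mem_univ _))
    rw [← h2, Finset.card_univ, Fintype.card_prod, Finset.sum_const, Finset.card_univ, hX,
      smul_eq_mul]
  have hcard : ∀ x : X, ((univ : Finset (K × K)).filter (fun z => F z = x)).card =
      Fintype.card K := fun x =>
    (Finset.sum_eq_sum_iff_of_le fun x _ => hle x).1 hsum x (mem_univ x)
  have hw : ∀ x : X, ∃ w : K × K, w ≠ 0 ∧
      ∀ z ∈ (univ : Finset (K × K)).filter (fun z => F z = x),
      ∀ z' ∈ (univ : Finset (K × K)).filter (fun z => F z = x), dot w z = dot w z' := by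
    intro x
    refine hLP ι f hN hnp _ (hcard x) fun i z hz z' hz' he => ?_
    exact hF i z z' he ((mem_filter.1 hz).2.trans (mem_filter.1 hz').2.symm)
  choose w hw0 hwc using hw
  -- the fibres are the lines
  have hline : ∀ (z z' : K × K), dot (w (F z)) z' = dot (w (F z)) z → F z' = F z := by
    intro z z' he
    have hsub : (univ : Finset (K × K)).filter (fun y => F y = F z) ⊆
        (univ : Finset (K × K)).filter (fun y => dot (w (F z)) y = dot (w (F z)) z) := by
      intro y hy
      exact mem_filter.2 ⟨mem_univ _, hwc (F z) y hy z (mem_filter.2 ⟨mem_univ _, rfl⟩)⟩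
    have heq := Finset.eq_of_subset_of_card_le hsub (by
      rw [hcard (F z)]
      exact line_card (hw0 _) _)
    have hz' : z' ∈ (univ : Finset (K × K)).filter
        (fun y => dot (w (F z)) y = dot (w (F z)) z) := mem_filter.2 ⟨mem_univ _, he⟩
    rw [← heq] at hz'
    exact (mem_filter.1 hz').2
  have hsurj : ∀ x : X, ∃ z, F z = x := by
    intro x
    have h2 : 0 < ((univ : Finset (K × K)).filter (fun z => F z = x)).card := by
      rw [hcard x]
      exact Fintype.card_pos
    obtain ⟨z, hz⟩ := Finset.card_pos.1 h2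
    exact ⟨z, (mem_filter.1 hz).2⟩
  have hprop : ∀ x : X, (w x).1 * (w x0).2 = (w x).2 * (w x0).1 := by
    intro x
    by_contra hne
    obtain ⟨z1, hz1⟩ := hsurj x
    obtain ⟨z2, hz2⟩ := hsurj x0
    obtain ⟨z, hz, hz'⟩ := solve hne (dot (w x) z1) (dot (w x0) z2)
    have h2 : F z = F z1 := hline z1 z (by rw [hz1]; exact hz)
    have h3 : F z = F z2 := hline z2 z (by rw [hz2]; exact hz')
    have h4 : x = x0 := by rw [← hz1, ← hz2, ← h2, h3]
    rw [h4] at hne
    exact hne (mul_comm _ _)
  refine ⟨w x0, hw0 x0, fun z z' he => ?_⟩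
  exact (hline z z' (prop_fib (hprop (F z)) (hw0 x0) he.symm)).symm

end Pool.Agent.J6H68.LM.Plane
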